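import Pool.Agent.Helper61.Tri.Goals2

/-!
# MP_5b3c48_co, packet FREESTR: the extremal graphs contain no copy of the forbidden graphs
-/

set_option autoImplicit false

open Finset SimpleGraph

namespace Pool.Agent.Helper56.Tri

open Pool.Agent.Helper61.Tri
open scoped Classical

noncomputable section

/-! ### the triangles of a blow-up -/

section general

variable {V₀ : Type*} (H : SimpleGraph V₀)

/-- the triangle of an edge -/
def TT (e : H.edgeSet) : Finset (V₀ ⊕ H.edgeSet) :=
  insert (Sum.inr e) (e.1.toFinset.image Sum.inl)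

theorem mem_inl (e : H.edgeSet) (v : V₀) : Sum.inl v ∈ TT H e ↔ v ∈ e.1 := by
  simp [TT]

theorem mem_inr (e f : H.edgeSet) : Sum.inr f ∈ TT H e ↔ f = e := by
  simp [TT]

theorem TT_tri (e : H.edgeSet) : ∃ u v w, (blowup H).Adj u v ∧ (blowup H).Adj u w ∧
    (blowup H).Adj v w ∧ u ∈ TT H e ∧ v ∈ TT H e ∧ w ∈ TT H e := by
  obtain ⟨f, hf⟩ : ∃ f, f = e := ⟨_, rfl⟩
  obtain ⟨⟨⟨a, b⟩⟩, hab⟩ := f
  have hab' : H.Adj a b := hab
  refine ⟨Sum.inl a, Sum.inl b, Sum.inr e, hab', ?_, ?_, ?_, ?_, (mem_inr H e e).2 rfl⟩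
  · change a ∈ e.1
    rw [← hf]; simp
  · change b ∈ e.1
    rw [← hf]; simp
  · rw [mem_inl, ← hf]; simp
  · rw [mem_inl, ← hf]; simp

theorem TT_inter (e f : H.edgeSet) (hef : e ≠ f) {x y : V₀ ⊕ H.edgeSet} (hxy : x ≠ y)
    (hx : x ∈ TT H e) (hx' : x ∈ TT H f) (hy : y ∈ TT H e) (hy' : y ∈ TT H f) : False := by
  rcases x with a | c
  · rcases y with b | d
    · rw [mem_inl] at hx hx' hy hy'
      have hne : a ≠ b := fun h => hxy (by rw [h])
      have h1 := (Sym2.mem_and_mem_iff hne).mp ⟨hx, hy⟩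
      have h2 := (Sym2.mem_and_mem_iff hne).mp ⟨hx', hy'⟩
      exact hef (Subtype.ext (h1.trans h2.symm))
    · rw [mem_inr] at hy hy'
      exact hef (hy.symm.trans hy')
  · rw [mem_inr] at hx hx'
    exact hef (hx.symm.trans hx')

/-- counting -/
theorem core {V : Type*} (G : SimpleGraph V) (f : Copy (blowup H) G) {k : ℕ}
    (e : Fin k → H.edgeSet) (he : Function.Injective e)
    (h2 : ∀ v, (univ.filter fun i => v ∈ (e i).1).card ≤ 2) (X : Finset V) :
    k ≤ X.card * 2 + (univ.filter fun i => ∀ w ∈ TT H (e i), f w ∉ X).card := by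
  have hinj : Function.Injective f := f.injective
  have h2' : ∀ w, (univ.filter fun i => w ∈ TT H (e i)).card ≤ 2 := by
    rintro (v | g)
    · simp only [mem_inl]
      exact h2 v
    · simp only [mem_inr]
      refine le_trans (Finset.card_le_one.mpr ?_) (by norm_num)
      intro i hi j hj
      simp only [Finset.mem_filter, Finset.mem_univ, true_and] at hi hj
      exact he (hi.symm.trans hj)
  have h3 : ∀ x ∈ X, (univ.filter fun i => ∃ w ∈ TT H (e i), f w = x).card ≤ 2 := by
    intro x _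
    by_cases hx : ∃ w, f w = x
    · obtain ⟨w, rfl⟩ := hx
      refine le_trans (Finset.card_le_card ?_) (h2' w)
      intro i hi
      simp only [Finset.mem_filter, Finset.mem_univ, true_and] at hi ⊢
      obtain ⟨w', hw', h⟩ := hi
      rwa [← hinj h]
    · have : (univ.filter fun i => ∃ w ∈ TT H (e i), f w = x) = ∅ := by
        ext i
        simp only [Finset.mem_filter, Finset.mem_univ, true_and, Finset.notMem_empty, iff_false]
        rintro ⟨w, _, h⟩
        exact hx ⟨w, h⟩
      rw [this]; simp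
  have h4 : (univ.filter fun i => ¬ ∀ w ∈ TT H (e i), f w ∉ X).card ≤ X.card * 2 := by
    refine le_trans (Finset.card_le_card ?_) (Finset.card_biUnion_le_card_mul X
      (fun x => univ.filter fun i => ∃ w ∈ TT H (e i), f w = x) 2 h3)
    intro i hi
    simp only [Finset.mem_filter, Finset.mem_univ, true_and] at hi
    push Not at hi
    obtain ⟨w, hw, hwX⟩ := hi
    simp only [Finset.mem_biUnion, Finset.mem_filter, Finset.mem_univ, true_and]
    exact ⟨f w, hwX, w, hw, rfl⟩
  have h5 := Finset.card_filter_add_card_filter_not (s := (Finset.univ : Finset (Fin k)))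
    (fun i => ∀ w ∈ TT H (e i), f w ∉ X)
  simp only [Finset.card_univ, Fintype.card_fin] at h5
  omega

/-- all triangles meet `X` -/
theorem free_odd {V : Type*} (G : SimpleGraph V) {k : ℕ}
    (e : Fin k → H.edgeSet) (he : Function.Injective e)
    (h2 : ∀ v, (univ.filter fun i => v ∈ (e i).1).card ≤ 2) (X : Finset V)
    (hG : ∀ u v w, G.Adj u v → G.Adj u w → G.Adj v w → u ∈ X ∨ v ∈ X ∨ w ∈ X)
    (hk : X.card * 2 < k) : (blowup H).Free G := by
  rintro ⟨f⟩
  have h := core H G f e he h2 X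
  have h0 : (univ.filter fun i => ∀ w ∈ TT H (e i), f w ∉ X) = ∅ := by
    ext i
    simp only [Finset.mem_filter, Finset.mem_univ, true_and, Finset.notMem_empty, iff_false]
    intro hi
    obtain ⟨u, v, w, huv, huw, hvw, hu, hv, hw⟩ := TT_tri H (e i)
    rcases hG _ _ _ (f.toHom.map_adj huv) (f.toHom.map_adj huw) (f.toHom.map_adj hvw) with
      h | h | h
    · exact hi u hu h
    · exact hi v hv h
    · exact hi w hw h
  rw [h0, Finset.card_empty] at h
  omega

/-- all triangles meet `X` or contain `p, q` -/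
theorem free_even {V : Type*} (G : SimpleGraph V) {k : ℕ}
    (e : Fin k → H.edgeSet) (he : Function.Injective e)
    (h2 : ∀ v, (univ.filter fun i => v ∈ (e i).1).card ≤ 2) (X : Finset V) (p q : V)
    (hpq : p ≠ q)
    (hG : ∀ u v w, G.Adj u v → G.Adj u w → G.Adj v w → (u ∈ X ∨ v ∈ X ∨ w ∈ X) ∨
      ((u = p ∨ v = p ∨ w = p) ∧ (u = q ∨ v = q ∨ w = q)))
    (hk : X.card * 2 + 1 < k) : (blowup H).Free G := by
  rintro ⟨f⟩
  have hinj : Function.Injective f := f.injective
  have h := core H G f e he h2 X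
  have key : ∀ i, (∀ w ∈ TT H (e i), f w ∉ X) →
      (∃ a ∈ TT H (e i), f a = p) ∧ ∃ b ∈ TT H (e i), f b = q := by
    intro i hi
    obtain ⟨u, v, w, huv, huw, hvw, hu, hv, hw⟩ := TT_tri H (e i)
    rcases hG _ _ _ (f.toHom.map_adj huv) (f.toHom.map_adj huw) (f.toHom.map_adj hvw) with
      (h | h | h) | ⟨h1, h2⟩
    · exact absurd h (hi u hu)
    · exact absurd h (hi v hv)
    · exact absurd h (hi w hw)
    · constructor
      · rcases h1 with h1 | h1 | h1
        · exact ⟨u, hu, h1⟩
        · exact ⟨v, hv, h1⟩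
        · exact ⟨w, hw, h1⟩
      · rcases h2 with h2 | h2 | h2
        · exact ⟨u, hu, h2⟩
        · exact ⟨v, hv, h2⟩
        · exact ⟨w, hw, h2⟩
  have h1 : (univ.filter fun i => ∀ w ∈ TT H (e i), f w ∉ X).card ≤ 1 := by
    rw [Finset.card_le_one]
    intro i hi j hj
    simp only [Finset.mem_filter, Finset.mem_univ, true_and] at hi hj
    by_contra hij
    obtain ⟨⟨a, ha, hap⟩, b, hb, hbq⟩ := key i hi
    obtain ⟨⟨a', ha', hap'⟩, b', hb', hbq'⟩ := key j hj
    obtain rfl : a = a' := hinj (hap.trans hap'.symm)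
    obtain rfl : b = b' := hinj (hbq.trans hbq'.symm)
    have hab : a ≠ b := by
      rintro rfl
      exact hpq (hap.symm.trans hbq)
    exact TT_inter H (e i) (e j) (fun h => hij (he h)) hab ha ha' hb hb'
  omega

end general

/-! ### cycles and paths -/

theorem cycle_edges (n : ℕ) (hn : 3 ≤ n) : ∃ e : Fin n → (cycleGraph n).edgeSet,
    Function.Injective e ∧ ∀ v, (univ.filter fun i => v ∈ (e i).1).card ≤ 2 := by
  obtain ⟨m, rfl⟩ : ∃ m, n = m + 3 := ⟨n - 3, by omega⟩
  refine ⟨fun i => ⟨s(i, i + 1), ?_⟩, ?_, ?_⟩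
  · rw [mem_edgeSet]
    change (cycleGraph (m + 1 + 2)).Adj i (i + 1)
    rw [cycleGraph_adj]
    right
    simp
  · intro i j h
    have h' : s(i, i + 1) = s(j, j + 1) := congrArg Subtype.val h
    rw [Sym2.eq_iff] at h'
    rcases h' with ⟨h1, _⟩ | ⟨h1, h2⟩
    · exact h1
    · exfalso
      rw [← h2] at h1
      have h3 : i + (1 + 1) = i + 0 := by
        rw [← add_assoc, ← h1, add_zero]
      have h4 : (1 + 1 : Fin (m + 3)) = 0 := add_left_cancel h3
      have h5 := congrArg Fin.val h4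
      rw [Fin.val_add] at h5
      have h6 : ((1 : Fin (m + 3)) : ℕ) = 1 := by simp
      rw [h6, Nat.mod_eq_of_lt (by omega)] at h5
      simp at h5
  · intro v
    refine le_trans (Finset.card_le_card (t := {v, v - 1}) ?_) Finset.card_le_two
    intro i hi
    simp only [Finset.mem_filter, Finset.mem_univ, true_and, Sym2.mem_iff] at hi
    rw [Finset.mem_insert, Finset.mem_singleton]
    rcases hi with h | h
    · exact Or.inl h.symm
    · right
      rw [h]; simp

theorem path_edges (n : ℕ) : ∃ e : Fin n → (pathGraph (n + 1)).edgeSet,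
    Function.Injective e ∧ ∀ v, (univ.filter fun i => v ∈ (e i).1).card ≤ 2 := by
  refine ⟨fun i => ⟨s(i.castSucc, i.succ), ?_⟩, ?_, ?_⟩
  · rw [mem_edgeSet, pathGraph_adj]
    left
    simp
  · intro i j h
    have h' : s(i.castSucc, i.succ) = s(j.castSucc, j.succ) := congrArg Subtype.val h
    rw [Sym2.eq_iff] at h'
    rcases h' with ⟨h1, _⟩ | ⟨h1, h2⟩
    · exact Fin.castSucc_injective _ h1
    · exfalso
      have h3 := congrArg Fin.val h1
      have h4 := congrArg Fin.val h2
      simp at h3 h4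
      omega
  · intro v
    rw [← not_lt, Finset.two_lt_card]
    rintro ⟨a, ha, b, hb, c, hc, hab, hac, hbc⟩
    simp only [Finset.mem_filter, Finset.mem_univ, true_and, Sym2.mem_iff] at ha hb hc
    have ha' : (v : ℕ) = a ∨ (v : ℕ) = a + 1 := by
      rcases ha with h | h
      · left; rw [h]; simp
      · right; rw [h]; simp
    have hb' : (v : ℕ) = b ∨ (v : ℕ) = b + 1 := by
      rcases hb with h | h
      · left; rw [h]; simp
      · right; rw [h]; simp
    have hc' : (v : ℕ) = c ∨ (v : ℕ) = c + 1 := by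
      rcases hc with h | h
      · left; rw [h]; simp
      · right; rw [h]; simp
    have hab' : (a : ℕ) ≠ b := fun h => hab (Fin.ext h)
    have hac' : (a : ℕ) ≠ c := fun h => hac (Fin.ext h)
    have hbc' : (b : ℕ) ≠ c := fun h => hbc (Fin.ext h)
    omega

theorem filt {k : ℕ} {p : Fin k → Prop} (d1 d2 : DecidablePred p) :
    (@Finset.filter _ p d1 univ).card = (@Finset.filter _ p d2 univ).card := by
  rw [Subsingleton.elim d1 d2]

theorem freestr : FreeStr := by
  intro V _ G s a b hs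
  constructor
  · rintro ⟨X, A, B, hX, _, _, hXA, hXB, hAB, hcov, hG⟩
    have dAB : ∀ x, x ∈ A → x ∈ B → False := fun x h1 h2 =>
      Finset.disjoint_left.1 hAB h1 h2
    have htri : ∀ u v w, G.Adj u v → G.Adj u w → G.Adj v w → u ∈ X ∨ v ∈ X ∨ w ∈ X := by
      intro u v w huv huw hvw
      by_contra hcon
      push Not at hcon
      obtain ⟨hu, hv, hw⟩ := hcon
      have f1 := (((hG u v).1 huv).2.resolve_left hu).resolve_left hv
      have f2 := (((hG u w).1 huw).2.resolve_left hu).resolve_left hw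
      have f3 := (((hG v w).1 hvw).2.resolve_left hv).resolve_left hw
      rcases f1 with ⟨a1, b1⟩ | ⟨a1, b1⟩ <;> rcases f2 with ⟨a2, b2⟩ | ⟨a2, b2⟩ <;>
        rcases f3 with ⟨a3, b3⟩ | ⟨a3, b3⟩ <;>
        first
          | exact dAB u (by assumption) (by assumption)
          | exact dAB v (by assumption) (by assumption)
          | exact dAB w (by assumption) (by assumption)
    obtain ⟨e, he, h2⟩ := cycle_edges (2 * s + 1) (by omega)
    obtain ⟨e', he', h2'⟩ := path_edges (2 * s + 1)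
    exact ⟨free_odd _ G e he (fun v => le_trans (le_of_eq (filt _ _)) (h2 v)) X htri (by omega),
      free_odd _ G e' he' (fun v => le_trans (le_of_eq (filt _ _)) (h2' v)) X htri (by omega)⟩
  · rintro ⟨X, A, B, hX, _, _, hXA, hXB, hAB, hcov, p, hp, q, hq, hpq, hG⟩
    have dAB : ∀ x, x ∈ A → x ∈ B → False := fun x h1 h2 =>
      Finset.disjoint_left.1 hAB h1 h2
    have htri : ∀ u v w, G.Adj u v → G.Adj u w → G.Adj v w → (u ∈ X ∨ v ∈ X ∨ w ∈ X) ∨
        ((u = p ∨ v = p ∨ w = p) ∧ (u = q ∨ v = q ∨ w = q)) := by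
      intro u v w huv huw hvw
      by_cases hcon : u ∈ X ∨ v ∈ X ∨ w ∈ X
      · exact Or.inl hcon
      right
      push Not at hcon
      obtain ⟨hu, hv, hw⟩ := hcon
      have f1 := (((hG u v).1 huv).2.resolve_left hu).resolve_left hv
      have f2 := (((hG u w).1 huw).2.resolve_left hu).resolve_left hw
      have f3 := (((hG v w).1 hvw).2.resolve_left hv).resolve_left hw
      have g1 : ((u ∈ A ∧ v ∈ B) ∨ (u ∈ B ∧ v ∈ A)) ∨ ((u = p ∧ v = q) ∨ (u = q ∧ v = p)) := by
        rcases f1 with h | h | h | h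
        · exact Or.inl (Or.inl h)
        · exact Or.inl (Or.inr h)
        · exact Or.inr (Or.inl h)
        · exact Or.inr (Or.inr h)
      have g2 : ((u ∈ A ∧ w ∈ B) ∨ (u ∈ B ∧ w ∈ A)) ∨ ((u = p ∧ w = q) ∨ (u = q ∧ w = p)) := by
        rcases f2 with h | h | h | h
        · exact Or.inl (Or.inl h)
        · exact Or.inl (Or.inr h)
        · exact Or.inr (Or.inl h)
        · exact Or.inr (Or.inr h)
      have g3 : ((v ∈ A ∧ w ∈ B) ∨ (v ∈ B ∧ w ∈ A)) ∨ ((v = p ∧ w = q) ∨ (v = q ∧ w = p)) := by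
        rcases f3 with h | h | h | h
        · exact Or.inl (Or.inl h)
        · exact Or.inl (Or.inr h)
        · exact Or.inr (Or.inl h)
        · exact Or.inr (Or.inr h)
      rcases g1 with k1 | ⟨h1, h2⟩ | ⟨h1, h2⟩
      · rcases g2 with k2 | ⟨h1, h2⟩ | ⟨h1, h2⟩
        · rcases g3 with k3 | ⟨h1, h2⟩ | ⟨h1, h2⟩
          · exfalso
            clear f1 f2 f3
            rcases k1 with ⟨a1, b1⟩ | ⟨a1, b1⟩ <;> rcases k2 with ⟨a2, b2⟩ | ⟨a2, b2⟩ <;>
              rcases k3 with ⟨a3, b3⟩ | ⟨a3, b3⟩ <;>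
              first
                | exact dAB u (by assumption) (by assumption)
                | exact dAB v (by assumption) (by assumption)
                | exact dAB w (by assumption) (by assumption)
          · exact ⟨Or.inr (Or.inl h1), Or.inr (Or.inr h2)⟩
          · exact ⟨Or.inr (Or.inr h2), Or.inr (Or.inl h1)⟩
        · exact ⟨Or.inl h1, Or.inr (Or.inr h2)⟩
        · exact ⟨Or.inr (Or.inr h2), Or.inl h1⟩
      · exact ⟨Or.inl h1, Or.inr (Or.inl h2)⟩
      · exact ⟨Or.inr (Or.inl h2), Or.inl h1⟩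
    obtain ⟨e, he, h2⟩ := cycle_edges (2 * s + 2) (by omega)
    obtain ⟨e', he', h2'⟩ := path_edges (2 * s + 2)
    exact ⟨free_even _ G e he (fun v => le_trans (le_of_eq (filt _ _)) (h2 v)) X p q hpq htri (by omega),
      free_even _ G e' he' (fun v => le_trans (le_of_eq (filt _ _)) (h2' v)) X p q hpq htri (by omega)⟩

end

end Pool.Agent.Helper56.Tri
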